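import Mathlib

set_option autoImplicit false

/-!
# Characters from a distance estimate

If all powers of `e` have distance at least one from the ideal generated by `k`, some character
vanishes at `k` and has modulus at least one at `e`.
-/

open scoped ENNReal NNReal Topology
open Filter

namespace Pool.Agent.TH258.Cx

universe u

theorem exists_char {A : Type u} [NormedCommRing A] [NormedAlgebra ℂ A] [CompleteSpace A]
    (k e : A) (h : ∀ n : ℕ, ∀ σ : A, 1 ≤ ‖e ^ n - k * σ‖) :
    ∃ φ : A →ₐ[ℂ] ℂ, φ k = 0 ∧ 1 ≤ ‖φ e‖ := by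
  let I : Ideal A := (Ideal.span {k}).closure
  haveI hI : IsClosed (I : Set A) := by
    change IsClosed (((Ideal.span {k}).closure : Ideal A) : Set A)
    rw [Ideal.coe_closure]
    exact isClosed_closure
  have hk : k ∈ I := by
    have h1 : k ∈ Ideal.span {k} := Ideal.mem_span_singleton_self k
    have h2 : k ∈ closure ((Ideal.span {k} : Ideal A) : Set A) := subset_closure h1
    rwa [← Ideal.coe_closure] at h2
  have hdist : ∀ n : ℕ, 1 ≤ ‖Ideal.Quotient.mk I (e ^ n)‖ := by
    intro n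
    have h1 : ‖Ideal.Quotient.mk I (e ^ n)‖ = Metric.infDist (e ^ n) (I : Set A) :=
      QuotientAddGroup.norm_mk (S := I.toAddSubgroup) (e ^ n)
    rw [h1]
    have hne : (I : Set A).Nonempty := ⟨0, I.zero_mem⟩
    rw [Metric.le_infDist hne]
    intro y hy
    rw [dist_eq_norm]
    have hy2 : y ∈ closure ((Ideal.span {k} : Ideal A) : Set A) := by
      rw [← Ideal.coe_closure]; exact hy
    have hcl : IsClosed {z : A | 1 ≤ ‖e ^ n - z‖} :=
      isClosed_le continuous_const (continuous_norm.comp (continuous_const.sub continuous_id))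
    refine closure_minimal ?_ hcl hy2
    intro z hz
    obtain ⟨σ, rfl⟩ := Ideal.mem_span_singleton'.1 hz
    change 1 ≤ ‖e ^ n - σ * k‖
    rw [mul_comm σ k]
    exact h n σ
  haveI : Nontrivial (A ⧸ I) := by
    refine ⟨⟨1, 0, ?_⟩⟩
    intro h10
    have h1 := hdist 0
    rw [pow_zero, map_one, h10, norm_zero] at h1
    linarith
  let q : A ⧸ I := Ideal.Quotient.mk I e
  have hr : 1 ≤ spectralRadius ℂ q := by
    refine ge_of_tendsto (spectrum.pow_nnnorm_pow_one_div_tendsto_nhds_spectralRadius q) ?_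
    refine Eventually.of_forall fun n => ?_
    have h1 : (1 : ℝ≥0∞) ≤ (‖q ^ n‖₊ : ℝ≥0∞) := by
      have h2 := hdist n
      rw [map_pow] at h2
      exact_mod_cast (show (1 : ℝ≥0) ≤ ‖q ^ n‖₊ from h2)
    calc (1 : ℝ≥0∞) = 1 ^ (1 / (n : ℝ)) := (ENNReal.one_rpow _).symm
      _ ≤ _ := ENNReal.rpow_le_rpow h1 (by positivity)
  obtain ⟨z, hz, hz2⟩ := spectrum.exists_nnnorm_eq_spectralRadius q
  obtain ⟨f, hf⟩ := WeakDual.CharacterSpace.mem_spectrum_iff_exists.1 hz
  have hz1 : 1 ≤ ‖z‖ := by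
    rw [← hz2] at hr
    exact_mod_cast hr
  let F : (A ⧸ I) →ₐ[ℂ] ℂ := WeakDual.CharacterSpace.toAlgHom f
  refine ⟨F.comp (Ideal.Quotient.mkₐ ℂ I), ?_, ?_⟩
  · change F (Ideal.Quotient.mk I k) = 0
    rw [Ideal.Quotient.eq_zero_iff_mem.2 hk, map_zero]
  · change 1 ≤ ‖f q‖
    rw [hf]; exact hz1

end Pool.Agent.TH258.Cx
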