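import Mathlib
import Pool.Agent.Helper550.MeasAlg

set_option autoImplicit false
set_option linter.unusedSectionVars false

open scoped ZeroAtInfty BoundedContinuousFunction Topology
open Filter Set Pool.Agent.Helper550.Rad

namespace Pool.Agent.TH258.Cx
noncomputable section

universe u
variable {G : Type u} [AddCommGroup G] [TopologicalSpace G] [IsTopologicalAddGroup G]
  [T2Space G] [LocallyCompactSpace G]

theorem cv_mul (μ ν : Meas G) (f : C₀(G, ℂ)) : cv (μ * ν) f = cv μ (cv ν f) := by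
  ext x
  rw [cv_apply, Meas.mul_apply, cv_tr, cv_apply]

theorem cv_one (f : C₀(G, ℂ)) : cv 1 f = f := by
  ext x
  rw [cv_apply, Meas.one_apply, tr_apply, add_zero]

theorem cv_dl (y : G) (f : C₀(G, ℂ)) (x : G) : cv (dl y) f x = f (x + y) := rfl

theorem cv_addm (μ ν : Meas G) (f : C₀(G, ℂ)) : cv (μ + ν) f = cv μ f + cv ν f := by
  ext x; rfl

theorem cv_subm (μ ν : Meas G) (f : C₀(G, ℂ)) : cv (μ - ν) f = cv μ f - cv ν f := by
  ext x; rfl

theorem cv_smulm (c : ℂ) (μ : Meas G) (f : C₀(G, ℂ)) : cv (c • μ) f = c • cv μ f := by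
  ext x; rfl

theorem apply_eq (μ : Meas G) (f : C₀(G, ℂ)) : μ f = cv μ f 0 := by
  rw [cv_apply, tr_zero]

theorem mul_apply' (μ ν : Meas G) (f : C₀(G, ℂ)) : (μ * ν) f = ν (cv μ f) := by
  rw [mul_comm, Meas.mul_apply]

/-- the function `|f|^2` -/
def sq (f : C₀(G, ℂ)) : C₀(G, ℂ) where
  toFun x := ((‖f x‖ ^ 2 : ℝ) : ℂ)
  continuous_toFun := Complex.continuous_ofReal.comp ((map_continuous f).norm.pow 2)
  zero_at_infty' := by
    have h := ((zero_at_infty f).norm.pow 2)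
    rw [norm_zero, zero_pow two_ne_zero] at h
    have h2 := (Complex.continuous_ofReal.tendsto 0).comp h
    rw [Complex.ofReal_zero] at h2
    exact h2

theorem sq_apply (f : C₀(G, ℂ)) (x : G) : sq f x = ((‖f x‖ ^ 2 : ℝ) : ℂ) := rfl

theorem sq_norm (f : C₀(G, ℂ)) (x : G) : ‖sq f x‖ = (sq f x).re := by
  rw [sq_apply, Complex.norm_real, Complex.ofReal_re, Real.norm_eq_abs, abs_of_nonneg (by positivity)]

theorem sq_le {f : C₀(G, ℂ)} (hf : ‖f‖ ≤ 1) : ‖sq f‖ ≤ 1 := by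
  rw [c0_norm_le zero_le_one]
  intro x
  rw [sq_norm, sq_apply, Complex.ofReal_re]
  have h := (c0_apply_le f x).trans hf
  have h0 := norm_nonneg (f x)
  nlinarith

/-- order preserving measures -/
def Ord (μ : Meas G) : Prop := ∀ g h : C₀(G, ℂ), (∀ x, ‖g x‖ ≤ (h x).re) → ∀ x, ‖cv μ g x‖ ≤ (cv μ h x).re

theorem Ord.dl (y : G) : Ord (dl y : Meas G) := fun g h hgh x => by
  rw [cv_dl, cv_dl]; exact hgh _

theorem Ord.one : Ord (1 : Meas G) := Ord.dl 0

theorem Ord.add {μ ν : Meas G} (h1 : Ord μ) (h2 : Ord ν) : Ord (μ + ν) := fun g h hgh x => by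
  rw [cv_addm, cv_addm]
  have e1 : (cv μ g + cv ν g) x = cv μ g x + cv ν g x := rfl
  have e2 : (cv μ h + cv ν h) x = cv μ h x + cv ν h x := rfl
  rw [e1, e2, Complex.add_re]
  exact (norm_add_le _ _).trans (add_le_add (h1 g h hgh x) (h2 g h hgh x))

theorem Ord.smul {c : ℝ} (hc : 0 ≤ c) {μ : Meas G} (h1 : Ord μ) : Ord ((c : ℂ) • μ) := fun g h hgh x => by
  rw [cv_smulm, cv_smulm]
  have e1 : ((c : ℂ) • cv μ g) x = (c : ℂ) * cv μ g x := rfl
  have e2 : ((c : ℂ) • cv μ h) x = (c : ℂ) * cv μ h x := rfl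
  rw [e1, e2, norm_mul, Complex.norm_real, Real.norm_eq_abs, abs_of_nonneg hc, Complex.re_ofReal_mul]
  exact mul_le_mul_of_nonneg_left (h1 g h hgh x) hc

theorem Ord.mul {μ ν : Meas G} (h1 : Ord μ) (h2 : Ord ν) : Ord (μ * ν) := fun g h hgh x => by
  rw [cv_mul, cv_mul]
  exact h1 _ _ (h2 g h hgh) x

theorem Ord.prod {ι : Type*} (F : Finset ι) {μ : ι → Meas G} (h : ∀ i ∈ F, Ord (μ i)) :
    Ord (∏ i ∈ F, μ i) := by
  classical
  induction F using Finset.induction_on with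
  | empty => rw [Finset.prod_empty]; exact Ord.one
  | insert i F hi ih =>
    rw [Finset.prod_insert hi]
    exact (h i (Finset.mem_insert_self _ _)).mul (ih fun j hj => h j (Finset.mem_insert_of_mem hj))

theorem Ord.pow {μ : Meas G} (h : Ord μ) (n : ℕ) : Ord (μ ^ n) := by
  induction n with
  | zero => rw [pow_zero]; exact Ord.one
  | succ n ih => rw [pow_succ]; exact ih.mul h

/-- the domination property -/
def Dom (κ η w : Meas G) : Prop := ∀ (f : C₀(G, ℂ)) (x : G), ‖cv κ (sq (cv w f)) x‖ ≤ (cv η (sq f) x).re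

theorem Dom.one : Dom (1 : Meas G) 1 1 := fun f x => by
  rw [cv_one, cv_one, cv_one]; exact (sq_norm f x).le

theorem Dom.mul {κ η w κ' η' w' : Meas G} (h : Dom κ η w) (h' : Dom κ' η' w') (hκ' : Ord κ') (hη : Ord η) :
    Dom (κ * κ') (η * η') (w * w') := fun f x => by
  have e1 : cv (κ * κ') (sq (cv (w * w') f)) = cv κ' (cv κ (sq (cv w (cv w' f)))) := by
    rw [mul_comm κ, cv_mul, cv_mul]
  rw [e1, cv_mul η η']
  have h1 := hκ' (cv κ (sq (cv w (cv w' f)))) (cv η (sq (cv w' f))) (fun y => h _ y) x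
  have h2 := hη (cv κ' (sq (cv w' f))) (cv η' (sq f)) (fun y => h' f y) x
  refine h1.trans (le_trans ?_ h2)
  rw [← cv_mul, mul_comm κ', cv_mul]
  exact Complex.re_le_norm _

theorem Dom.prod {ι : Type*} (F : Finset ι) {κ η w : ι → Meas G} (h : ∀ i ∈ F, Dom (κ i) (η i) (w i))
    (hκ : ∀ i ∈ F, Ord (κ i)) (hη : ∀ i ∈ F, Ord (η i)) :
    Dom (∏ i ∈ F, κ i) (∏ i ∈ F, η i) (∏ i ∈ F, w i) := by
  classical
  induction F using Finset.induction_on with
  | empty => rw [Finset.prod_empty, Finset.prod_empty, Finset.prod_empty]; exact Dom.one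
  | insert i F hi ih =>
    rw [Finset.prod_insert hi, Finset.prod_insert hi, Finset.prod_insert hi]
    exact (h i (Finset.mem_insert_self _ _)).mul
      (ih (fun j hj => h j (Finset.mem_insert_of_mem hj)) (fun j hj => hκ j (Finset.mem_insert_of_mem hj))
        (fun j hj => hη j (Finset.mem_insert_of_mem hj)))
      (Ord.prod F fun j hj => hκ j (Finset.mem_insert_of_mem hj)) (hη i (Finset.mem_insert_self _ _))

/-- invariance under the translations by elements of `Y` -/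
def Inv (Y : Set G) (g : C₀(G, ℂ)) : Prop := ∀ y ∈ Y, ∀ x, g (x + y) = g x

theorem Inv.tr_eq {Y : Set G} {g : C₀(G, ℂ)} (h : Inv Y g) {y : G} (hy : y ∈ Y) : tr y g = g := by
  ext x
  rw [tr_apply, add_comm]; exact h y hy x

theorem Inv.cv {Y : Set G} {g : C₀(G, ℂ)} (h : Inv Y g) (μ : Meas G) : Inv Y (cv μ g) := by
  intro y hy x
  rw [cv_apply, cv_apply]
  congr 1
  ext z
  rw [tr_apply, tr_apply, add_right_comm]
  exact h y hy _

theorem Inv.sub {Y : Set G} {g g' : C₀(G, ℂ)} (h : Inv Y g) (h' : Inv Y g') : Inv Y (g - g') := by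
  intro y hy x
  change g (x + y) - g' (x + y) = g x - g' x
  rw [h y hy, h' y hy]

theorem Inv.bm_trunc {Y : Set G} {g : C₀(G, ℂ)} (h : Inv Y g) {C : ℝ} (hC : 0 < C) :
    Inv Y (bm (trunc g hC) g) := by
  intro y hy x
  change ((C / max C ‖g (x + y)‖ : ℝ) : ℂ) * g (x + y) = ((C / max C ‖g x‖ : ℝ) : ℂ) * g x
  rw [h y hy]

theorem trunc_bound (g : C₀(G, ℂ)) {C : ℝ} (hC : 0 < C) : ‖bm (trunc g hC) g‖ ≤ C := by
  rw [c0_norm_le hC.le]
  intro x
  change ‖((C / max C ‖g x‖ : ℝ) : ℂ) * g x‖ ≤ C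
  rw [norm_mul, Complex.norm_real, Real.norm_eq_abs, abs_of_nonneg (by positivity), div_mul_eq_mul_div,
    div_le_iff₀ (by positivity)]
  exact mul_le_mul_of_nonneg_left (le_max_right _ _) hC.le

theorem trunc_diff (g : C₀(G, ℂ)) {C : ℝ} (hC : 0 < C) (x : G) :
    ‖(g - bm (trunc g hC) g) x‖ ≤ ((((1 / (4 * C) : ℝ) : ℂ) • sq g) x).re := by
  change ‖g x - ((C / max C ‖g x‖ : ℝ) : ℂ) * g x‖ ≤ (((1 / (4 * C) : ℝ) : ℂ) * ((‖g x‖ ^ 2 : ℝ) : ℂ)).re
  rw [← Complex.ofReal_mul, Complex.ofReal_re]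
  have e1 : g x - ((C / max C ‖g x‖ : ℝ) : ℂ) * g x = ((1 - C / max C ‖g x‖ : ℝ) : ℂ) * g x := by
    push_cast; ring
  rw [e1, norm_mul, Complex.norm_real, Real.norm_eq_abs]
  set r := ‖g x‖ with hr
  have hr0 : 0 ≤ r := norm_nonneg _
  rcases le_total r C with h | h
  · rw [max_eq_left h, div_self hC.ne', sub_self, abs_zero, zero_mul]
    positivity
  · rw [max_eq_right h]
    have hr1 : 0 < r := lt_of_lt_of_le hC h
    have h2 : 0 ≤ 1 - C / r := by
      rw [sub_nonneg, div_le_one hr1]; exact h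
    rw [abs_of_nonneg h2]
    have h3 : (1 - C / r) * r = r - C := by field_simp
    rw [h3, one_div, inv_mul_eq_div, le_div_iff₀ (by positivity)]
    nlinarith [sq_nonneg (r - 2 * C)]

theorem sq_le_of_forall {a b c : ℝ} (ha : 0 ≤ a) (hb : 0 ≤ b) (hc : 0 ≤ c)
    (h : ∀ C : ℝ, 0 < C → a ≤ C * b + c / (4 * C)) : a ^ 2 ≤ b * c := by
  have key : ∀ C : ℝ, 0 ≤ (4 * b) * (C * C) + (-4 * a) * C + c := by
    intro C
    rcases lt_or_ge 0 C with hC | hC
    · have h1 := h C hC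
      have h2 : C * b + c / (4 * C) = (4 * b * C ^ 2 + c) / (4 * C) := by field_simp
      rw [h2, le_div_iff₀ (by positivity)] at h1
      nlinarith
    · have h1 : 0 ≤ (-4 * a) * C := by nlinarith
      have h2 : 0 ≤ (4 * b) * (C * C) := mul_nonneg (by linarith) (mul_self_nonneg C)
      linarith
  have h2 := discrim_le_zero key
  unfold discrim at h2
  nlinarith

theorem core {κ η κF ηF wF : Meas G} {Y : Set G} (hmul : ηF = κF * wF) (hDom : Dom κF ηF wF)
    (hOrd : Ord κF) (hη1 : ‖ηF‖ ≤ 1) (hκ : ∀ g, Inv Y g → cv κ g = cv κF g) {f : C₀(G, ℂ)}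
    (hf : Inv Y f) (hηf : cv η f = cv ηF f) (hf1 : ‖f‖ ≤ 1) (ν : Meas G) :
    ‖(η * ν) f‖ ^ 2 ≤ ‖κ * ν‖ * ‖ν‖ := by
  set φ := cv wF f with hφ
  have hφI : Inv Y φ := hf.cv wF
  have e1 : (η * ν) f = (κ * ν) φ := by
    rw [mul_apply', mul_apply', hηf, hmul, cv_mul, hκ φ hφI]
  rw [e1]
  refine sq_le_of_forall (norm_nonneg _) (norm_nonneg _) (norm_nonneg _) ?_
  intro C hC
  have e2 : (κ * ν) φ = (κ * ν) (bm (trunc φ hC) φ) + (κ * ν) (φ - bm (trunc φ hC) φ) := by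
    rw [map_sub]; ring
  rw [e2]
  have b1 : ‖(κ * ν) (bm (trunc φ hC) φ)‖ ≤ C * ‖κ * ν‖ := by
    rw [mul_comm C]
    exact Meas.le_of le_rfl (trunc_bound φ hC)
  have b2 : ‖(κ * ν) (φ - bm (trunc φ hC) φ)‖ ≤ ‖ν‖ / (4 * C) := by
    rw [mul_apply', hκ _ (hφI.sub (hφI.bm_trunc hC))]
    rw [div_eq_mul_inv]
    refine Meas.le_of le_rfl ?_
    rw [c0_norm_le (by positivity)]
    intro x
    refine (hOrd _ _ (trunc_diff φ hC) x).trans ?_
    rw [Pool.Agent.Helper550.Rad.cv_smul]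
    have e3 : ((((1 / (4 * C) : ℝ) : ℂ) • cv κF (sq φ)) x) = ((1 / (4 * C) : ℝ) : ℂ) * cv κF (sq φ) x := rfl
    rw [e3, Complex.re_ofReal_mul, one_div]
    have h5 : (cv κF (sq φ) x).re ≤ 1 := by
      refine (Complex.re_le_norm _).trans ((hDom f x).trans ((Complex.re_le_norm _).trans ?_))
      refine (c0_apply_le _ x).trans ((cv_norm ηF (sq f)).trans ?_)
      have := sq_le hf1
      nlinarith [norm_nonneg ηF, norm_nonneg (sq f)]
    have h6 : 0 ≤ (4 * C)⁻¹ := by positivity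
    nlinarith
  exact (norm_add_le _ _).trans (add_le_add b1 b2)

end
end Pool.Agent.TH258.Cx
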