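import Mathlib
import Pool.Agent.TH258.Cx.Basic

set_option autoImplicit false
set_option linter.unusedSectionVars false

open scoped ZeroAtInfty BoundedContinuousFunction Topology
open Filter Set Pool.Agent.Helper550.Rad

namespace Pool.Agent.TH258.Cx
noncomputable section

universe u v

variable {ι : Type u} [DecidableEq ι] {H : ι → Type v} [∀ i, AddCommGroup (H i)] [∀ i, TopologicalSpace (H i)]
  [∀ i, DiscreteTopology (H i)] [∀ i, Finite (H i)]

/-- elements vanishing on `F` -/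
def Z (F : Finset ι) : Set (∀ i, H i) := {y | ∀ i ∈ F, y i = 0}

/-- elements vanishing off `i` -/
def K (i : ι) : Set (∀ i, H i) := {y | ∀ j, j ≠ i → y j = 0}

theorem K_sub_Z {F : Finset ι} {i : ι} (hi : i ∉ F) : (K i : Set (∀ i, H i)) ⊆ Z F := by
  intro y hy j hj
  exact hy j (fun h => hi (h ▸ hj))

/-- a continuous function as an element of `C₀` -/
def mkC (f : (∀ i, H i) → ℂ) (hf : Continuous f) : C₀((∀ i, H i), ℂ) where
  toFun := f
  continuous_toFun := hf
  zero_at_infty' := by rw [Filter.cocompact_eq_bot]; exact tendsto_bot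

@[simp] theorem mkC_apply (f : (∀ i, H i) → ℂ) (hf : Continuous f) (x : ∀ i, H i) : mkC f hf x = f x := rfl

/-- restriction to the coordinates in `F` -/
def proj (F : Finset ι) (x : ∀ i, H i) : ∀ i, H i := fun i => if i ∈ F then x i else 0

theorem proj_continuous (F : Finset ι) : Continuous (proj F : (∀ i, H i) → ∀ i, H i) := by
  refine continuous_pi fun i => ?_
  unfold proj
  by_cases h : i ∈ F
  · simp only [h, if_true]; exact continuous_apply i
  · simp only [h, if_false]; exact continuous_const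

theorem exists_approx (f : C₀((∀ i, H i), ℂ)) {δ : ℝ} (hδ : 0 < δ) :
    ∃ (F : Finset ι) (g : C₀((∀ i, H i), ℂ)), Inv (Z F) g ∧ ‖g‖ ≤ ‖f‖ ∧ ‖f - g‖ ≤ δ := by
  obtain ⟨V, hV, hV2⟩ := tr_equi f hδ
  rw [nhds_pi, Filter.mem_pi'] at hV
  obtain ⟨F, t, ht, hFt⟩ := hV
  refine ⟨F, mkC (fun x => f (proj F x)) ((map_continuous f).comp (proj_continuous F)), ?_, ?_, ?_⟩
  · intro y hy x
    rw [mkC_apply, mkC_apply]
    congr 1
    funext i
    unfold proj
    by_cases h : i ∈ F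
    · simp [h, hy i h]
    · simp [h]
  · rw [c0_norm_le (norm_nonneg _)]
    intro x
    exact c0_apply_le f _
  · rw [c0_norm_le hδ.le]
    intro x
    have h1 : proj F x - x ∈ V := by
      apply hFt
      intro i hi
      have h2 : (proj F x - x) i = 0 := by
        change (if i ∈ F then x i else 0) - x i = 0
        rw [if_pos (Finset.mem_coe.1 hi), sub_self]
      rw [h2]
      exact mem_of_mem_nhds (ht i)
    have h3 := hV2 _ h1 x
    rw [sub_add_cancel] at h3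
    change ‖f x - f (proj F x)‖ ≤ δ
    rwa [norm_sub_rev]

/-- `μ` is a probability measure (up to sign) concentrated on the coordinate `i`, in weak form -/
def Tot (i : ι) (μ : Meas (∀ i, H i)) : Prop := ∀ g : C₀((∀ i, H i), ℂ), Inv (K i) g → cv μ g = g

theorem tot_prod {F D : Finset ι} {μ : ι → Meas (∀ i, H i)} (h : ∀ i, Tot i (μ i)) (hD : Disjoint F D)
    {g : C₀((∀ i, H i), ℂ)} (hg : Inv (Z F) g) : cv (∏ i ∈ D, μ i) g = g := by
  induction D using Finset.induction_on with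
  | empty => rw [Finset.prod_empty]; exact cv_one g
  | insert i D hi ih =>
    rw [Finset.prod_insert hi, cv_mul, ih (hD.mono_right (Finset.subset_insert _ _))]
    apply h i
    have hiF : i ∉ F := fun hF => Finset.disjoint_left.1 hD hF (Finset.mem_insert_self _ _)
    exact fun y hy x => hg y (K_sub_Z hiF hy) x

theorem tot_stable {F F' : Finset ι} {μ : ι → Meas (∀ i, H i)} (h : ∀ i, Tot i (μ i)) (hF : F ⊆ F')
    {g : C₀((∀ i, H i), ℂ)} (hg : Inv (Z F) g) : cv (∏ i ∈ F', μ i) g = cv (∏ i ∈ F, μ i) g := by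
  rw [← Finset.prod_sdiff hF, mul_comm, cv_mul, tot_prod h Finset.disjoint_sdiff hg]

theorem norm_prod_le' (F : Finset ι) {μ : ι → Meas (∀ i, H i)} (h : ∀ i, ‖μ i‖ ≤ 1) :
    ‖∏ i ∈ F, μ i‖ ≤ 1 :=
  (Finset.norm_prod_le F μ).trans (Finset.prod_le_one (fun i _ => norm_nonneg _) fun i _ => h i)

/-- infinite product -/
theorem exists_limit {μ : ι → Meas (∀ i, H i)} (h : ∀ i, Tot i (μ i)) (hn : ∀ i, ‖μ i‖ ≤ 1) :
    ∃ M : Meas (∀ i, H i), ‖M‖ ≤ 1 ∧ ∀ (F : Finset ι) (g : C₀((∀ i, H i), ℂ)), Inv (Z F) g →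
      cv M g = cv (∏ i ∈ F, μ i) g := by
  let U : Ultrafilter (Finset ι) := Ultrafilter.of atTop
  have hU : (U : Filter (Finset ι)) ≤ atTop := Ultrafilter.of_le _
  have hex : ∀ f : C₀((∀ i, H i), ℂ), ∃ z : ℂ, Tendsto (fun F : Finset ι => (∏ i ∈ F, μ i) f) U (𝓝 z) := by
    intro f
    have hc : IsCompact (Metric.closedBall (0 : ℂ) ‖f‖) := isCompact_closedBall _ _
    have hle : ((U.map fun F : Finset ι => (∏ i ∈ F, μ i) f : Ultrafilter ℂ) : Filter ℂ) ≤
        𝓟 (Metric.closedBall (0 : ℂ) ‖f‖) := by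
      rw [le_principal_iff]
      change _ ∈ (U : Filter (Finset ι)).map _
      rw [mem_map]
      refine Filter.univ_mem' fun F => ?_
      rw [mem_preimage, mem_closedBall_zero_iff]
      have := Meas.le_of (norm_prod_le' F hn) (le_refl ‖f‖)
      linarith
    obtain ⟨z, _, hz⟩ := hc.ultrafilter_le_nhds _ hle
    exact ⟨z, hz⟩
  choose L hL using hex
  have hLn : ∀ f, ‖L f‖ ≤ 1 * ‖f‖ := by
    intro f
    refine le_of_tendsto (hL f).norm (Eventually.of_forall fun F => ?_)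
    exact Meas.le_of (norm_prod_le' F hn) (le_refl ‖f‖)
  let M : Meas (∀ i, H i) := Meas.mk
    { toFun := L
      map_add' := fun f g => by
        refine tendsto_nhds_unique (hL (f + g)) ?_
        have := (hL f).add (hL g)
        refine this.congr fun F => ?_
        rw [map_add]
      map_smul' := fun c f => by
        refine tendsto_nhds_unique (hL (c • f)) ?_
        have := (hL f).const_mul c
        refine this.congr fun F => ?_
        rw [map_smul, smul_eq_mul] } 1 hLn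
  refine ⟨M, Meas.mk_norm _ _ _ zero_le_one, ?_⟩
  intro F g hg
  ext x
  rw [cv_apply, cv_apply]
  have h1 : Tendsto (fun F' : Finset ι => (∏ i ∈ F', μ i) (tr x g)) U (𝓝 ((∏ i ∈ F, μ i) (tr x g))) := by
    refine tendsto_const_nhds.congr' ?_
    have h2 : ∀ᶠ F' in (U : Filter (Finset ι)), F ⊆ F' := hU (eventually_ge_atTop F)
    filter_upwards [h2] with F' hF'
    rw [← cv_apply, ← cv_apply, tot_stable h hF' hg]
  exact tendsto_nhds_unique (hL (tr x g)) h1

/-- the inequality `‖η ν‖² ≤ ‖κ ν‖ ‖ν‖` -/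
theorem main_ineq {κi ηi wi : ι → Meas (∀ i, H i)} {κ η : Meas (∀ i, H i)}
    (hmul : ∀ i, ηi i = κi i * wi i) (hDom : ∀ i, Dom (κi i) (ηi i) (wi i)) (hκo : ∀ i, Ord (κi i))
    (hηo : ∀ i, Ord (ηi i)) (hηn : ∀ i, ‖ηi i‖ ≤ 1)
    (hκ : ∀ (F : Finset ι) (g : C₀((∀ i, H i), ℂ)), Inv (Z F) g → cv κ g = cv (∏ i ∈ F, κi i) g)
    (hη : ∀ (F : Finset ι) (g : C₀((∀ i, H i), ℂ)), Inv (Z F) g → cv η g = cv (∏ i ∈ F, ηi i) g)
    (ν : Meas (∀ i, H i)) : ‖η * ν‖ ^ 2 ≤ ‖κ * ν‖ * ‖ν‖ := by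
  have key : ‖η * ν‖ ≤ Real.sqrt (‖κ * ν‖ * ‖ν‖) := by
    refine Meas.norm_le_one (Real.sqrt_nonneg _) fun f hf => ?_
    refine le_of_forall_pos_le_add fun ε hε => ?_
    obtain ⟨F, g, hg1, hg2, hg3⟩ := exists_approx f (δ := ε / (‖η * ν‖ + 1)) (by positivity)
    have h1 : ‖(η * ν) g‖ ^ 2 ≤ ‖κ * ν‖ * ‖ν‖ :=
      core (κF := ∏ i ∈ F, κi i) (ηF := ∏ i ∈ F, ηi i) (wF := ∏ i ∈ F, wi i) (Y := Z F)
        (by rw [← Finset.prod_mul_distrib]; exact Finset.prod_congr rfl fun i _ => hmul i)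
        (Dom.prod F (fun i _ => hDom i) (fun i _ => hκo i) fun i _ => hηo i)
        (Ord.prod F fun i _ => hκo i) (norm_prod_le' F hηn) (fun g hg => hκ F g hg) hg1 (hη F g hg1)
        (hg2.trans hf) ν
    have h2 : ‖(η * ν) g‖ ≤ Real.sqrt (‖κ * ν‖ * ‖ν‖) := Real.le_sqrt_of_sq_le h1
    have h3 : ‖(η * ν) (f - g)‖ ≤ ε := by
      refine (Meas.le_of (le_refl ‖η * ν‖) hg3).trans ?_
      rw [mul_div_assoc', div_le_iff₀ (by positivity)]
      nlinarith [norm_nonneg (η * ν)]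
    have h4 : (η * ν) f = (η * ν) g + (η * ν) (f - g) := by rw [map_sub]; ring
    rw [h4]
    exact (norm_add_le _ _).trans (add_le_add h2 h3)
  calc ‖η * ν‖ ^ 2 ≤ Real.sqrt (‖κ * ν‖ * ‖ν‖) ^ 2 := by gcongr
    _ = _ := Real.sq_sqrt (by positivity)

/-- a function of the coordinate `i` -/
def fn (i : ι) (φ : H i → ℂ) : C₀((∀ i, H i), ℂ) :=
  mkC (fun x => φ (x i)) ((continuous_of_discreteTopology (f := φ)).comp (continuous_apply i))

@[simp] theorem fn_apply (i : ι) (φ : H i → ℂ) (x : ∀ i, H i) : fn i φ x = φ (x i) := rfl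

/-- product of functions of one coordinate -/
def pr (F : Finset ι) (φ : ∀ i, H i → ℂ) : C₀((∀ i, H i), ℂ) :=
  mkC (fun x => ∏ i ∈ F, φ i (x i))
    (continuous_finsetProd F fun i _ => (continuous_of_discreteTopology (f := φ i)).comp (continuous_apply i))

@[simp] theorem pr_apply (F : Finset ι) (φ : ∀ i, H i → ℂ) (x : ∀ i, H i) :
    pr F φ x = ∏ i ∈ F, φ i (x i) := rfl

/-- locality -/
def Loc (i : ι) (μ : Meas (∀ i, H i)) : Prop :=
  ∀ g h : C₀((∀ i, H i), ℂ), Inv (K i) g → cv μ (g * h) = g * cv μ h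

theorem Loc.one (i : ι) : Loc i (1 : Meas (∀ i, H i)) := fun g h _ => by rw [cv_one, cv_one]

theorem Loc.dl {i : ι} {y : ∀ i, H i} (hy : y ∈ K i) : Loc i (dl y : Meas (∀ i, H i)) := fun g h hg => by
  ext x
  change g (x + y) * h (x + y) = g x * h (x + y)
  rw [hg y hy]

theorem Loc.add {i : ι} {μ ν : Meas (∀ i, H i)} (h1 : Loc i μ) (h2 : Loc i ν) : Loc i (μ + ν) :=
  fun g h hg => by rw [cv_addm, cv_addm, h1 g h hg, h2 g h hg, mul_add]

theorem Loc.smul {i : ι} (c : ℂ) {μ : Meas (∀ i, H i)} (h1 : Loc i μ) : Loc i (c • μ) :=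
  fun g h hg => by rw [cv_smulm, cv_smulm, h1 g h hg, mul_smul_comm]

theorem Loc.mul {i : ι} {μ ν : Meas (∀ i, H i)} (h1 : Loc i μ) (h2 : Loc i ν) : Loc i (μ * ν) :=
  fun g h hg => by rw [cv_mul, cv_mul, h2 g h hg, h1 g _ hg]

theorem Loc.pow {i : ι} {μ : Meas (∀ i, H i)} (h1 : Loc i μ) (n : ℕ) : Loc i (μ ^ n) := by
  induction n with
  | zero => rw [pow_zero]; exact Loc.one i
  | succ n ih => rw [pow_succ]; exact ih.mul h1

theorem loc_prod {F : Finset ι} {μ : ι → Meas (∀ i, H i)} (h : ∀ i, Loc i (μ i))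
    {g : C₀((∀ i, H i), ℂ)} (hg : ∀ i ∈ F, Inv (K i) g) (f : C₀((∀ i, H i), ℂ)) :
    cv (∏ i ∈ F, μ i) (g * f) = g * cv (∏ i ∈ F, μ i) f := by
  induction F using Finset.induction_on with
  | empty => rw [Finset.prod_empty, cv_one, cv_one]
  | insert i F hi ih =>
    rw [Finset.prod_insert hi, cv_mul, cv_mul, ih fun j hj => hg j (Finset.mem_insert_of_mem hj),
      h i _ _ (hg i (Finset.mem_insert_self _ _))]

theorem pr_inv (F : Finset ι) (φ : ∀ i, H i → ℂ) : Inv (Z F) (pr F φ) := fun y hy x => by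
  rw [pr_apply, pr_apply]
  refine Finset.prod_congr rfl fun i hi => ?_
  rw [Pi.add_apply, hy i hi, add_zero]

theorem fn_inv {i j : ι} (hij : i ≠ j) (φ : H i → ℂ) : Inv (K j) (fn i φ) := fun y hy x => by
  rw [fn_apply, fn_apply, Pi.add_apply, hy i hij, add_zero]

theorem prod_formula {F : Finset ι} {μ : ι → Meas (∀ i, H i)} (h : ∀ i, Loc i (μ i)) (φ : ∀ i, H i → ℂ)
    (x : ∀ i, H i) : cv (∏ i ∈ F, μ i) (pr F φ) x = ∏ i ∈ F, cv (μ i) (fn i (φ i)) x := by
  induction F using Finset.induction_on with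
  | empty => rw [Finset.prod_empty, cv_one]; simp
  | insert i F hi ih =>
    have e1 : pr (insert i F) φ = fn i (φ i) * pr F φ := by
      ext x
      change ∏ j ∈ insert i F, φ j (x j) = φ i (x i) * ∏ j ∈ F, φ j (x j)
      rw [Finset.prod_insert hi]
    rw [Finset.prod_insert hi, Finset.prod_insert hi, e1, cv_mul,
      loc_prod h (fun j hj => fn_inv (by rintro rfl; exact hi hj) _), mul_comm (fn i (φ i)),
      h i _ _ (fun y hy x => ((pr_inv F φ).cv _) y (K_sub_Z hi hy) x), mul_comm]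
    change cv (μ i) (fn i (φ i)) x * cv (∏ i ∈ F, μ i) (pr F φ) x = _
    rw [ih]

end
end Pool.Agent.TH258.Cx
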