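import Mathlib
import Pool.Agent.TH258.Cx.Prod

set_option autoImplicit false
set_option linter.unusedSectionVars false

open scoped ZeroAtInfty BoundedContinuousFunction Topology
open Filter Set Pool.Agent.Helper550.Rad

namespace Pool.Agent.TH258.Cx
noncomputable section

/-- the group -/
abbrev GG : Type := ∀ i : ℕ × ℕ, ZMod 2 × ZMod (i.1 + 2)

/-- parameter `s` -/
def sp (k : ℕ) : ℝ := 1 - 1 / (4 * ((k : ℝ) + 1))

/-- parameter `t` -/
def tp (k : ℕ) : ℝ := (1 - sp k ^ 2) / 4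

theorem sp_pos (k : ℕ) : 0 < sp k := by
  unfold sp
  rw [sub_pos, div_lt_one (by positivity)]
  have : (0 : ℝ) ≤ k := Nat.cast_nonneg k
  linarith

theorem sp_lt (k : ℕ) : sp k < 1 := by
  unfold sp
  have : 0 < 1 / (4 * ((k : ℝ) + 1)) := by positivity
  linarith

theorem tp_pos (k : ℕ) : 0 < tp k := by
  unfold tp
  have h1 := sp_pos k
  have h2 := sp_lt k
  have : sp k ^ 2 < 1 := by nlinarith
  linarith

theorem tp_lt (k : ℕ) : tp k < 1 := by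
  unfold tp
  have : 0 ≤ sp k ^ 2 := by positivity
  linarith

theorem sp_pow (k : ℕ) : 3 / 4 ≤ sp k ^ k := by
  have h1 : (0 : ℝ) ≤ k := Nat.cast_nonneg k
  have h2 : (-2 : ℝ) ≤ -(1 / (4 * ((k : ℝ) + 1))) := by
    rw [neg_le_neg_iff, div_le_iff₀ (by positivity)]
    linarith
  have h3 := one_add_mul_le_pow h2 k
  have h4 : sp k = 1 + -(1 / (4 * ((k : ℝ) + 1))) := by unfold sp; ring
  rw [h4]
  refine le_trans ?_ h3
  have h5 : (k : ℝ) * (1 / (4 * ((k : ℝ) + 1))) ≤ 1 / 4 := by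
    rw [mul_one_div, div_le_div_iff₀ (by positivity) (by positivity)]
    linarith
  linarith

variable (i : ℕ × ℕ)

/-- first translation -/
def ea : GG := Pi.single i (1, 0)
/-- second translation -/
def ec : GG := Pi.single i (0, 1)

/-- coordinate measure `κ` -/
def kap : Meas GG := ((3 / 4 : ℝ) : ℂ) • 1 + ((1 / 4 : ℝ) : ℂ) • dl (ea i)
/-- coordinate measure `w` -/
def wm : Meas GG := (((1 - tp i.1) / 2 : ℝ) : ℂ) • 1 + (((1 - tp i.1) / 2 : ℝ) : ℂ) • dl (ea i) +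
  ((tp i.1 / 2 * (1 + 2 * sp i.1) : ℝ) : ℂ) • dl (ec i) +
  ((tp i.1 / 2 * (1 - 2 * sp i.1) : ℝ) : ℂ) • dl (ea i + ec i)
/-- coordinate measure `η` -/
def et : Meas GG := (((1 - tp i.1) / 2 : ℝ) : ℂ) • 1 + (((1 - tp i.1) / 2 : ℝ) : ℂ) • dl (ea i) +
  ((tp i.1 / 2 * (1 + sp i.1) : ℝ) : ℂ) • dl (ec i) +
  ((tp i.1 / 2 * (1 - sp i.1) : ℝ) : ℂ) • dl (ea i + ec i)

theorem ea_ea : ea i + ea i = 0 := by
  unfold ea
  rw [← Pi.single_add]
  have : ((1, 0) + (1, 0) : ZMod 2 × ZMod (i.1 + 2)) = 0 := by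
    ext
    · change (1 + 1 : ZMod 2) = 0
      decide
    · simp
  rw [this, Pi.single_zero]

theorem ea_mem : ea i ∈ (K i : Set GG) := fun j hj => by
  unfold ea; rw [Pi.single_eq_of_ne hj]

theorem ec_mem : ec i ∈ (K i : Set GG) := fun j hj => by
  unfold ec; rw [Pi.single_eq_of_ne hj]

theorem eac_mem : ea i + ec i ∈ (K i : Set GG) := fun j hj => by
  rw [Pi.add_apply, ea_mem i j hj, ec_mem i j hj, add_zero]

theorem cv_kap (f : C₀(GG, ℂ)) (x : GG) :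
    cv (kap i) f x = ((3 / 4 : ℝ) : ℂ) * f x + ((1 / 4 : ℝ) : ℂ) * f (x + ea i) := by
  unfold kap
  rw [cv_addm, cv_smulm, cv_smulm, cv_one]
  rfl

theorem cv_wm (f : C₀(GG, ℂ)) (x : GG) :
    cv (wm i) f x = (((1 - tp i.1) / 2 : ℝ) : ℂ) * f x + (((1 - tp i.1) / 2 : ℝ) : ℂ) * f (x + ea i) +
      ((tp i.1 / 2 * (1 + 2 * sp i.1) : ℝ) : ℂ) * f (x + ec i) +
      ((tp i.1 / 2 * (1 - 2 * sp i.1) : ℝ) : ℂ) * f (x + (ea i + ec i)) := by
  unfold wm
  rw [cv_addm, cv_addm, cv_addm, cv_smulm, cv_smulm, cv_smulm, cv_smulm, cv_one]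
  rfl

theorem cv_et (f : C₀(GG, ℂ)) (x : GG) :
    cv (et i) f x = (((1 - tp i.1) / 2 : ℝ) : ℂ) * f x + (((1 - tp i.1) / 2 : ℝ) : ℂ) * f (x + ea i) +
      ((tp i.1 / 2 * (1 + sp i.1) : ℝ) : ℂ) * f (x + ec i) +
      ((tp i.1 / 2 * (1 - sp i.1) : ℝ) : ℂ) * f (x + (ea i + ec i)) := by
  unfold et
  rw [cv_addm, cv_addm, cv_addm, cv_smulm, cv_smulm, cv_smulm, cv_smulm, cv_one]
  rfl

theorem et_eq : et i = kap i * wm i := by
  ext f
  rw [apply_eq, apply_eq, cv_mul, cv_et, cv_kap, cv_wm, cv_wm]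
  have h1 : (0 : GG) + ea i + ea i = 0 := by rw [zero_add, ea_ea]
  have h2 : (0 : GG) + ea i + (ea i + ec i) = ec i := by rw [zero_add, ← add_assoc, ea_ea, zero_add]
  have h3 : (0 : GG) + ea i + ec i = ea i + ec i := by rw [zero_add]
  rw [h1, h2, h3, zero_add, zero_add, zero_add]
  push_cast
  ring

theorem kap_ord : Ord (kap i) :=
  (Ord.one.smul (by norm_num)).add ((Ord.dl _).smul (by norm_num))

theorem et_ord : Ord (et i) := by
  have h1 := sp_pos i.1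
  have h2 := sp_lt i.1
  have h3 := tp_pos i.1
  have h4 := tp_lt i.1
  refine (((Ord.one.smul ?_).add ((Ord.dl _).smul ?_)).add ((Ord.dl _).smul ?_)).add ((Ord.dl _).smul ?_)
  · linarith
  · linarith
  · positivity
  · exact mul_nonneg (by positivity) (by linarith)

theorem kap_loc : Loc i (kap i) :=
  ((Loc.one i).smul _).add ((Loc.dl (ea_mem i)).smul _)

theorem et_loc : Loc i (et i) :=
  ((((Loc.one i).smul _).add ((Loc.dl (ea_mem i)).smul _)).add ((Loc.dl (ec_mem i)).smul _)).add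
    ((Loc.dl (eac_mem i)).smul _)

theorem kap_tot : Tot i (kap i) := fun g hg => by
  ext x
  rw [cv_kap, hg _ (ea_mem i)]
  push_cast
  ring

theorem et_tot : Tot i (et i) := fun g hg => by
  ext x
  rw [cv_et, hg _ (ea_mem i), hg _ (ec_mem i), hg _ (eac_mem i)]
  push_cast
  ring

/-- constant function -/
def cst (c : ℂ) : C₀(GG, ℂ) := mkC (fun _ => c) continuous_const

@[simp] theorem cst_apply (c : ℂ) (x : GG) : cst c x = c := rfl

theorem cst_inv (Y : Set GG) (c : ℂ) : Inv Y (cst c) := fun _ _ _ => rfl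

theorem norm_le_one_of {i : ℕ × ℕ} {μ : Meas GG} (hO : Ord μ) (hT : Tot i μ) : ‖μ‖ ≤ 1 := by
  refine Meas.norm_le zero_le_one fun f => ?_
  rw [apply_eq, one_mul]
  have h1 := hO f (cst (‖f‖ : ℂ)) (fun x => by rw [cst_apply, Complex.ofReal_re]; exact c0_apply_le f x) 0
  rw [hT _ (cst_inv _ _), cst_apply, Complex.ofReal_re] at h1
  exact h1

theorem real_ineq (s t A B C D : ℝ) (hs0 : 0 < s) (hs1 : s < 1) (ht : t = (1 - s ^ 2) / 4) :
    3 / 4 * ((1 - t) / 2 * A + (1 - t) / 2 * B + t / 2 * (1 + 2 * s) * C + t / 2 * (1 - 2 * s) * D) ^ 2 +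
    1 / 4 * ((1 - t) / 2 * B + (1 - t) / 2 * A + t / 2 * (1 + 2 * s) * D + t / 2 * (1 - 2 * s) * C) ^ 2 ≤
    (1 - t) / 2 * A ^ 2 + (1 - t) / 2 * B ^ 2 + t / 2 * (1 + s) * C ^ 2 + t / 2 * (1 - s) * D ^ 2 := by
  have ht0 : 0 < t := by rw [ht]; nlinarith
  have ht1 : t < 1 := by rw [ht]; nlinarith
  set P := (C + D) / 2 - (A + B) / 2 with hP
  set Q := (C - D) / 2 with hQ
  have e : (1 - t) / 2 * A ^ 2 + (1 - t) / 2 * B ^ 2 + t / 2 * (1 + s) * C ^ 2 + t / 2 * (1 - s) * D ^ 2 -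
    (3 / 4 * ((1 - t) / 2 * A + (1 - t) / 2 * B + t / 2 * (1 + 2 * s) * C + t / 2 * (1 - 2 * s) * D) ^ 2 +
    1 / 4 * ((1 - t) / 2 * B + (1 - t) / 2 * A + t / 2 * (1 + 2 * s) * D + t / 2 * (1 - 2 * s) * C) ^ 2) =
    t * (1 - t) * (P + s * Q) ^ 2 + t * (1 - 4 * t * s ^ 2 - (1 - t) * s ^ 2) * Q ^ 2 +
      (1 - t) * ((A - B) / 2) ^ 2 := by
    rw [hP, hQ]; ring
  have h1 : 0 ≤ 1 - 4 * t * s ^ 2 - (1 - t) * s ^ 2 := by
    have : 1 - 4 * t * s ^ 2 - (1 - t) * s ^ 2 = (1 - s ^ 2) * (1 - 3 / 4 * s ^ 2) := by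
      rw [ht]; ring
    rw [this]
    apply mul_nonneg <;> nlinarith
  have h2 : 0 ≤ t * (1 - t) * (P + s * Q) ^ 2 := by
    have : 0 ≤ 1 - t := by linarith
    positivity
  have h3 : 0 ≤ t * (1 - 4 * t * s ^ 2 - (1 - t) * s ^ 2) * Q ^ 2 := by positivity
  have h4 : 0 ≤ (1 - t) * ((A - B) / 2) ^ 2 := mul_nonneg (by linarith) (by positivity)
  linarith

theorem nsq (z : ℂ) : ‖z‖ ^ 2 = z.re ^ 2 + z.im ^ 2 := by
  rw [← Complex.normSq_eq_norm_sq, Complex.normSq_apply]; ring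

theorem dom_i : Dom (kap i) (et i) (wm i) := fun f x => by
  have e1 : cv (kap i) (sq (cv (wm i) f)) x =
      ((3 / 4 * ‖cv (wm i) f x‖ ^ 2 + 1 / 4 * ‖cv (wm i) f (x + ea i)‖ ^ 2 : ℝ) : ℂ) := by
    rw [cv_kap, sq_apply, sq_apply]; push_cast; ring
  have e2 : cv (et i) (sq f) x = (((1 - tp i.1) / 2 * ‖f x‖ ^ 2 + (1 - tp i.1) / 2 * ‖f (x + ea i)‖ ^ 2 +
      tp i.1 / 2 * (1 + sp i.1) * ‖f (x + ec i)‖ ^ 2 +
      tp i.1 / 2 * (1 - sp i.1) * ‖f (x + (ea i + ec i))‖ ^ 2 : ℝ) : ℂ) := by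
    rw [cv_et, sq_apply, sq_apply, sq_apply, sq_apply]; push_cast; ring
  rw [e1, e2, Complex.norm_real, Complex.ofReal_re, Real.norm_eq_abs, abs_of_nonneg (by positivity),
    cv_wm, cv_wm]
  have h1 : x + ea i + ea i = x := by rw [add_assoc, ea_ea, add_zero]
  have h2 : x + ea i + (ea i + ec i) = x + ec i := by rw [← add_assoc, h1]
  have h3 : x + ea i + ec i = x + (ea i + ec i) := by rw [add_assoc]
  rw [h1, h2, h3]
  simp only [nsq, Complex.add_re, Complex.add_im, Complex.re_ofReal_mul, Complex.im_ofReal_mul]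
  have h4 := real_ineq (sp i.1) (tp i.1) (f x).re (f (x + ea i)).re (f (x + ec i)).re
    (f (x + (ea i + ec i))).re (sp_pos _) (sp_lt _) rfl
  have h5 := real_ineq (sp i.1) (tp i.1) (f x).im (f (x + ea i)).im (f (x + ec i)).im
    (f (x + (ea i + ec i))).im (sp_pos _) (sp_lt _) rfl
  linarith

end
end Pool.Agent.TH258.Cx
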