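import Mathlib
import Pool.Agent.TH258.Cx.One

set_option autoImplicit false
set_option linter.unusedSectionVars false

open scoped ZeroAtInfty BoundedContinuousFunction Topology
open Filter Set Pool.Agent.Helper550.Rad

namespace Pool.Agent.TH258.Cx
noncomputable section

/-- sign of an element of `Z/2` -/
def sgn (b : ZMod 2) : ℝ := if b = 0 then 1 else -1

theorem sgn_add (b : ZMod 2) : sgn (b + 1) = -sgn b := by
  unfold sgn
  have h : b = 0 ∨ b = 1 := by
    revert b; decide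
  rcases h with rfl | rfl
  · rw [if_neg (by decide), if_pos rfl]
  · rw [if_pos (by decide), if_neg (by decide), neg_neg]

theorem sgn_cases (b : ZMod 2) : sgn b = 1 ∨ sgn b = -1 := by
  unfold sgn
  split_ifs
  · exact Or.inl rfl
  · exact Or.inr rfl

variable (i : ℕ × ℕ)

/-- separating function -/
def ff (h : ZMod 2 × ZMod (i.1 + 2)) : ℝ := if h.2 = (i.1 : ZMod (i.1 + 2)) then 1 / 4 - sgn h.1 / 2 else 0

/-- gap -/
def be : ℝ := tp i.1 ^ i.1 * (sp i.1 ^ i.1 / 2 - 1 / 4)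

theorem be_pos : 0 < be i := by
  unfold be
  have h1 := sp_pow i.1
  have h2 : 0 < tp i.1 ^ i.1 := pow_pos (tp_pos _) _
  apply mul_pos h2
  linarith

theorem be_le : be i ≤ 1 / 4 := by
  unfold be
  have h1 : sp i.1 ^ i.1 ≤ 1 := pow_le_one₀ (sp_pos _).le (sp_lt _).le
  have h2 : tp i.1 ^ i.1 ≤ 1 := pow_le_one₀ (tp_pos _).le (tp_lt _).le
  have h3 : 0 ≤ tp i.1 ^ i.1 := pow_nonneg (tp_pos _).le _
  have h4 := sp_pow i.1
  nlinarith

theorem ff_bound (h : ZMod 2 × ZMod (i.1 + 2)) : -(1 / 4) ≤ ff i h ∧ ff i h ≤ 3 / 4 := by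
  unfold ff
  split_ifs
  · rcases sgn_cases h.1 with h1 | h1 <;> rw [h1] <;> constructor <;> norm_num
  · constructor <;> norm_num

theorem ff_kap (h : ZMod 2 × ZMod (i.1 + 2)) : 0 ≤ 3 / 4 * ff i h + 1 / 4 * ff i (h + (1, 0)) := by
  unfold ff
  have e1 : (h + (1, 0)).2 = h.2 := by simp
  have e2 : (h + (1, 0)).1 = h.1 + 1 := by simp
  rw [e1, e2, sgn_add]
  split_ifs
  · rcases sgn_cases h.1 with h1 | h1 <;> rw [h1] <;> norm_num
  · norm_num

theorem cast_inj {k L : ℕ} (hL : L ≤ k) : ((L : ZMod (k + 2)) = (k : ZMod (k + 2))) ↔ L = k := by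
  rw [ZMod.natCast_eq_natCast_iff', Nat.mod_eq_of_lt (by omega), Nat.mod_eq_of_lt (by omega)]

/-- values of the iterates -/
theorem iter (r : ℕ) : ∀ (x : GG) (b : ZMod 2) (L : ℕ), x i = (b, (L : ZMod (i.1 + 2))) → L + r ≤ i.1 →
    cv (et i ^ r) (fn i fun h => (ff i h : ℂ)) x =
      (((if L + r = i.1 then tp i.1 ^ r * (1 / 4 - sgn b * sp i.1 ^ r / 2) else 0 : ℝ)) : ℂ) := by
  induction r with
  | zero =>
    intro x b L hx hL
    rw [pow_zero, cv_one, fn_apply, hx]
    unfold ff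
    congr 1
    simp only [add_zero] at hL ⊢
    by_cases h : L = i.1
    · rw [if_pos h, if_pos ((cast_inj hL).2 h)]; ring
    · rw [if_neg h, if_neg (fun h' => h ((cast_inj hL).1 h'))]
  | succ r ih =>
    intro x b L hx hL
    rw [pow_succ', cv_mul, cv_et]
    have ha : (x + ea i) i = (b + 1, (L : ZMod (i.1 + 2))) := by
      rw [Pi.add_apply, hx]; unfold ea; rw [Pi.single_eq_same]; simp
    have hc : (x + ec i) i = (b, ((L + 1 : ℕ) : ZMod (i.1 + 2))) := by
      rw [Pi.add_apply, hx]; unfold ec; rw [Pi.single_eq_same]; simp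
    have hac : (x + (ea i + ec i)) i = (b + 1, ((L + 1 : ℕ) : ZMod (i.1 + 2))) := by
      rw [← add_assoc, Pi.add_apply, ha]; unfold ec; rw [Pi.single_eq_same]; simp
    rw [ih x b L hx (by omega), ih _ _ L ha (by omega), ih _ _ (L + 1) hc (by omega),
      ih _ _ (L + 1) hac (by omega), sgn_add]
    have hne : ¬ (L + r = i.1) := by omega
    have hiff : (L + 1 + r = i.1) ↔ (L + (r + 1) = i.1) := by omega
    rw [if_neg hne, if_neg hne]
    simp only [hiff]
    split_ifs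
    · push_cast; ring
    · push_cast; ring

theorem et_pow_ff : (et i ^ i.1) (fn i fun h => (ff i h : ℂ)) = ((-be i : ℝ) : ℂ) := by
  rw [apply_eq, iter i i.1 0 0 0 (by simp [Prod.ext_iff]) (by omega)]
  rw [if_pos (by omega)]
  congr 1
  unfold be sgn
  rw [if_pos rfl]; ring

/-- the shifted function -/
def gg (h : ZMod 2 × ZMod (i.1 + 2)) : ℝ := ff i h + be i / 2

theorem gg_bound (h : ZMod 2 × ZMod (i.1 + 2)) : |be i / 8 * gg i h| ≤ 1 / 2 ∧ |gg i h| ≤ 1 := by
  have h1 := ff_bound i h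
  have h2 := be_pos i
  have h3 := be_le i
  have h4 : |gg i h| ≤ 1 := by
    unfold gg; rw [abs_le]; constructor <;> linarith
  refine ⟨?_, h4⟩
  rw [abs_mul, abs_of_pos (by positivity)]
  nlinarith [abs_nonneg (gg i h)]

/-- the positive test function -/
def ps (h : ZMod 2 × ZMod (i.1 + 2)) : ℝ := 1 - be i / 8 * gg i h

/-- the rate -/
def qq : ℝ := 1 - be i ^ 2 / 32

theorem qq_pos : 0 < qq i := by
  unfold qq
  have h2 := be_pos i
  have h3 := be_le i
  nlinarith

theorem qq_lt : qq i < 1 := by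
  unfold qq
  have h2 := be_pos i
  have : 0 < be i ^ 2 / 32 := by positivity
  linarith

theorem ps_pos (h : ZMod 2 × ZMod (i.1 + 2)) : 1 / 2 ≤ ps i h := by
  have := (abs_le.1 (gg_bound i h).1).2
  unfold ps; linarith

theorem kap_ps (x : GG) : ‖cv (kap i) (fn i fun h => (ps i h : ℂ)) x‖ ≤ qq i := by
  rw [cv_kap, fn_apply, fn_apply]
  have e : (x + ea i) i = x i + (1, 0) := by
    rw [Pi.add_apply]; unfold ea; rw [Pi.single_eq_same]
  rw [e, ← Complex.ofReal_mul, ← Complex.ofReal_mul, ← Complex.ofReal_add, Complex.norm_real, Real.norm_eq_abs]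
  have h1 := ps_pos i (x i)
  have h2 := ps_pos i (x i + (1, 0))
  rw [abs_of_nonneg (by linarith)]
  have h3 := ff_kap i (x i)
  have h4 := be_pos i
  unfold qq ps gg
  nlinarith [mul_nonneg h4.le h3]

theorem et_ps : ‖(et i ^ i.1) (fn i fun h => ((ps i h)⁻¹ : ℂ))‖ ≤ qq i := by
  have h0 := be_pos i
  have hO := (et_ord i).pow i.1
  have h1 := hO (fn i fun h => ((ps i h)⁻¹ : ℂ)) (cst ((1 + 2 * (be i / 8) ^ 2 + be i / 8 * (be i / 2) : ℝ) : ℂ) +
    ((be i / 8 : ℝ) : ℂ) • fn i fun h => (ff i h : ℂ)) ?_ 0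
  · rw [← apply_eq, ← apply_eq, map_add, map_smul, et_pow_ff] at h1
    have hT : ∀ r : ℕ, ∀ c : ℂ, (et i ^ r) (cst c) = c := by
      intro r
      induction r with
      | zero => intro c; rw [pow_zero, Meas.one_apply, cst_apply]
      | succ r ih => intro c; rw [pow_succ, Meas.mul_apply, et_tot i _ (cst_inv _ _), ih]
    rw [hT, smul_eq_mul, ← Complex.ofReal_mul, ← Complex.ofReal_add, Complex.ofReal_re] at h1
    refine h1.trans ?_
    unfold qq
    nlinarith
  · intro x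
    have e1 : (cst ((1 + 2 * (be i / 8) ^ 2 + be i / 8 * (be i / 2) : ℝ) : ℂ) +
        ((be i / 8 : ℝ) : ℂ) • fn i (fun h => (ff i h : ℂ)) : C₀(GG, ℂ)) x =
        ((1 + 2 * (be i / 8) ^ 2 + be i / 8 * gg i (x i) : ℝ) : ℂ) := by
      change ((1 + 2 * (be i / 8) ^ 2 + be i / 8 * (be i / 2) : ℝ) : ℂ) +
        ((be i / 8 : ℝ) : ℂ) * (ff i (x i) : ℂ) = _
      unfold gg
      push_cast; ring
    rw [e1, Complex.ofReal_re, fn_apply]
    have h2 := ps_pos i (x i)
    rw [← Complex.ofReal_inv, Complex.norm_real, Real.norm_eq_abs, abs_of_pos (by positivity)]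
    rw [inv_eq_one_div, div_le_iff₀ (by linarith)]
    obtain ⟨h3, h4⟩ := gg_bound i (x i)
    set u := be i / 8 * gg i (x i) with hu
    have h5 : u ^ 2 ≤ (be i / 8) ^ 2 := by
      rw [hu, mul_pow]
      have : gg i (x i) ^ 2 ≤ 1 := by
        rw [← sq_abs]; nlinarith [abs_nonneg (gg i (x i))]
      nlinarith [sq_nonneg (be i / 8)]
    have h6 : u ≤ 1 / 2 := (abs_le.1 h3).2
    have h7 : ps i (x i) = 1 - u := by unfold ps; rw [hu]
    rw [h7]
    nlinarith [sq_nonneg u, mul_nonneg (sq_nonneg u) (show (0 : ℝ) ≤ 1 - 2 * u by linarith),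
      mul_nonneg (sub_nonneg.2 h5) (show (0 : ℝ) ≤ 1 - u by linarith)]

end
end Pool.Agent.TH258.Cx
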