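import Mathlib
import Pool.Agent.TH258.Cx.Test
import Pool.Agent.TH258.Cx.Char

set_option autoImplicit false
set_option linter.unusedSectionVars false

open scoped ZeroAtInfty BoundedContinuousFunction Topology
open Filter Set Pool.Agent.Helper550.Rad

namespace Pool.Agent.TH258.Cx
noncomputable section

/-- the block of coordinates `(n, j)`, `j < N` -/
def blk (n N : ℕ) : Finset (ℕ × ℕ) := (Finset.range N).image fun j => (n, j)

theorem blk_card (n N : ℕ) : (blk n N).card = N := by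
  unfold blk
  rw [Finset.card_image_of_injective _ (fun a b h => by simpa using h), Finset.card_range]

theorem blk_fst {n N : ℕ} {i : ℕ × ℕ} (h : i ∈ blk n N) : i.1 = n := by
  unfold blk at h
  obtain ⟨j, _, rfl⟩ := Finset.mem_image.1 h
  rfl

/-- rate for the level `n` -/
def qn (n : ℕ) : ℝ := qq (n, 0)

theorem qq_eq {n N : ℕ} {i : ℕ × ℕ} (h : i ∈ blk n N) : qq i = qn n := by
  have h1 := blk_fst h
  unfold qn qq be
  rw [h1]

/-- the real product `∏ ψ` -/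
def PP (F : Finset (ℕ × ℕ)) (x : GG) : ℝ := ∏ i ∈ F, ps i (x i)

theorem PP_pos (F : Finset (ℕ × ℕ)) (x : GG) : 0 < PP F x :=
  Finset.prod_pos fun i _ => lt_of_lt_of_le (by norm_num) (ps_pos i (x i))

theorem PP_cont (F : Finset (ℕ × ℕ)) : Continuous (PP F) :=
  continuous_finsetProd F fun i _ => (continuous_of_discreteTopology (f := ps i)).comp (continuous_apply i)

theorem PP_inv (F : Finset (ℕ × ℕ)) {y : GG} (hy : y ∈ (Z F : Set GG)) (x : GG) : PP F (x + y) = PP F x := by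
  unfold PP
  refine Finset.prod_congr rfl fun i hi => ?_
  rw [Pi.add_apply, hy i hi, add_zero]

/-- the test function -/
def Ps (F : Finset (ℕ × ℕ)) : C₀(GG, ℂ) :=
  mkC (fun x => ((PP F x / (1 + PP F x) : ℝ) : ℂ))
    (Complex.continuous_ofReal.comp ((PP_cont F).div (continuous_const.add (PP_cont F))
      fun x => by have := PP_pos F x; positivity))

theorem Ps_apply (F : Finset (ℕ × ℕ)) (x : GG) : Ps F x = ((PP F x / (1 + PP F x) : ℝ) : ℂ) := rfl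

theorem Ps_inv (F : Finset (ℕ × ℕ)) : Inv (Z F) (Ps F) := fun y hy x => by
  rw [Ps_apply, Ps_apply, PP_inv F hy]

theorem Ps_norm (F : Finset (ℕ × ℕ)) : ‖Ps F‖ ≤ 1 := by
  rw [c0_norm_le zero_le_one]
  intro x
  have h := PP_pos F x
  rw [Ps_apply, Complex.norm_real, Real.norm_eq_abs, abs_of_pos (by positivity), div_le_one (by positivity)]
  linarith

theorem Ps_le (F : Finset (ℕ × ℕ)) (x : GG) :
    ‖Ps F x‖ ≤ (pr F (fun i h => (ps i h : ℂ)) x).re := by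
  have h := PP_pos F x
  rw [Ps_apply, Complex.norm_real, Real.norm_eq_abs, abs_of_pos (by positivity), pr_apply,
    ← Complex.ofReal_prod, Complex.ofReal_re]
  change PP F x / (1 + PP F x) ≤ PP F x
  rw [div_le_iff₀ (by positivity)]
  nlinarith

theorem one_sub_Ps_le (F : Finset (ℕ × ℕ)) (x : GG) :
    ‖(cst 1 - Ps F) x‖ ≤ (pr F (fun i h => ((ps i h)⁻¹ : ℂ)) x).re := by
  have h := PP_pos F x
  have e1 : (cst 1 - Ps F) x = ((1 / (1 + PP F x) : ℝ) : ℂ) := by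
    change (1 : ℂ) - ((PP F x / (1 + PP F x) : ℝ) : ℂ) = _
    have : (1 / (1 + PP F x) : ℝ) = 1 - PP F x / (1 + PP F x) := by field_simp; ring
    rw [this]; push_cast; ring
  have e2 : pr F (fun i h => ((ps i h)⁻¹ : ℂ)) x = (((PP F x)⁻¹ : ℝ) : ℂ) := by
    rw [pr_apply]
    unfold PP
    rw [← Finset.prod_inv_distrib, Complex.ofReal_prod]
    exact Finset.prod_congr rfl fun i _ => (Complex.ofReal_inv _).symm
  rw [e1, e2, Complex.norm_real, Real.norm_eq_abs, abs_of_pos (by positivity), Complex.ofReal_re,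
    one_div]
  apply inv_anti₀ h
  linarith

theorem kap_bound (n N : ℕ) (x : GG) :
    ‖cv (∏ i ∈ blk n N, kap i) (Ps (blk n N)) x‖ ≤ qn n ^ N := by
  refine ((Ord.prod _ fun i _ => kap_ord i) _ _ (Ps_le (blk n N)) x).trans ?_
  refine (Complex.re_le_norm _).trans ?_
  rw [prod_formula kap_loc, norm_prod]
  calc ∏ i ∈ blk n N, ‖cv (kap i) (fn i fun h => (ps i h : ℂ)) x‖ ≤ ∏ i ∈ blk n N, qn n := by
        refine Finset.prod_le_prod (fun i _ => norm_nonneg _) fun i hi => ?_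
        rw [← qq_eq hi]; exact kap_ps i x
    _ = qn n ^ N := by rw [Finset.prod_const, blk_card]

theorem et_bound (n N : ℕ) :
    ‖cv (∏ i ∈ blk n N, et i ^ n) (cst 1 - Ps (blk n N)) 0‖ ≤ qn n ^ N := by
  refine ((Ord.prod _ fun i _ => (et_ord i).pow n) _ _ (one_sub_Ps_le (blk n N)) 0).trans ?_
  refine (Complex.re_le_norm _).trans ?_
  rw [prod_formula fun i => (et_loc i).pow n, norm_prod]
  calc ∏ i ∈ blk n N, ‖cv (et i ^ n) (fn i fun h => ((ps i h)⁻¹ : ℂ)) 0‖ ≤ ∏ i ∈ blk n N, qn n := by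
        refine Finset.prod_le_prod (fun i _ => norm_nonneg _) fun i hi => ?_
        rw [← qq_eq hi, ← apply_eq, ← blk_fst hi]; exact et_ps i
    _ = qn n ^ N := by rw [Finset.prod_const, blk_card]

theorem cv_pow_eq {η : Meas GG} (hη : ∀ (F : Finset (ℕ × ℕ)) (g : C₀(GG, ℂ)), Inv (Z F) g →
    cv η g = cv (∏ i ∈ F, et i) g) (F : Finset (ℕ × ℕ)) (n : ℕ) :
    ∀ g : C₀(GG, ℂ), Inv (Z F) g → cv (η ^ n) g = cv (∏ i ∈ F, et i ^ n) g := by
  rw [Finset.prod_pow]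
  induction n with
  | zero => intro g _; rw [pow_zero, pow_zero]
  | succ n ih =>
    intro g hg
    rw [pow_succ, pow_succ, cv_mul, cv_mul, hη F g hg]
    exact ih _ (hg.cv _)

theorem dist_bound {κ η : Meas GG}
    (hκ : ∀ (F : Finset (ℕ × ℕ)) (g : C₀(GG, ℂ)), Inv (Z F) g → cv κ g = cv (∏ i ∈ F, kap i) g)
    (hη : ∀ (F : Finset (ℕ × ℕ)) (g : C₀(GG, ℂ)), Inv (Z F) g → cv η g = cv (∏ i ∈ F, et i) g)
    (n : ℕ) (σ : Meas GG) : 1 ≤ ‖η ^ n - κ * σ‖ := by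
  have key : ∀ N : ℕ, 1 - (1 + ‖σ‖) * qn n ^ N ≤ ‖η ^ n - κ * σ‖ := by
    intro N
    set F := blk n N with hF
    have h1 : ‖(η ^ n - κ * σ) (Ps F)‖ ≤ ‖η ^ n - κ * σ‖ := by
      have := Meas.le_of (le_refl ‖η ^ n - κ * σ‖) (Ps_norm F)
      linarith
    have h2 : ‖(κ * σ) (Ps F)‖ ≤ ‖σ‖ * qn n ^ N := by
      rw [mul_apply', hκ F _ (Ps_inv F)]
      refine Meas.le_of le_rfl ?_
      rw [c0_norm_le (show (0 : ℝ) ≤ qn n ^ N from pow_nonneg (qq_pos _).le _)]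
      intro x
      exact kap_bound n N x
    have h3 : ‖(η ^ n) (cst 1 - Ps F)‖ ≤ qn n ^ N := by
      have hinv : Inv (Z F) (cst 1 - Ps F) := (cst_inv _ _).sub (Ps_inv F)
      rw [apply_eq, cv_pow_eq hη F n _ hinv]
      exact et_bound n N
    have h4 : (η ^ n) (cst 1) = 1 := by
      rw [apply_eq, cv_pow_eq hη ∅ n _ (cst_inv _ _), Finset.prod_empty, cv_one, cst_apply]
    have h5 : (η ^ n - κ * σ) (Ps F) = 1 - (η ^ n) (cst 1 - Ps F) - (κ * σ) (Ps F) := by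
      rw [Meas.sub_apply, map_sub, h4]; ring
    have h6 : 1 - ‖(η ^ n) (cst 1 - Ps F)‖ - ‖(κ * σ) (Ps F)‖ ≤ ‖(η ^ n - κ * σ) (Ps F)‖ := by
      rw [h5]
      have a1 := norm_sub_norm_le (1 - (η ^ n) (cst 1 - Ps F)) ((κ * σ) (Ps F))
      have a2 := norm_sub_norm_le (1 : ℂ) ((η ^ n) (cst 1 - Ps F))
      rw [norm_one] at a2
      linarith
    nlinarith
  have hlim : Tendsto (fun N : ℕ => 1 - (1 + ‖σ‖) * qn n ^ N) atTop (𝓝 (1 - (1 + ‖σ‖) * 0)) :=
    tendsto_const_nhds.sub ((tendsto_pow_atTop_nhds_zero_of_lt_one (qq_pos _).le (qq_lt _)).const_mul _)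
  rw [mul_zero, sub_zero] at hlim
  exact le_of_tendsto' hlim key

/-- the main theorem -/
theorem main : ∃ (φ : Meas GG →ₐ[ℂ] ℂ) (μ₁ μ₂ : Meas GG), φ μ₁ = 0 ∧ φ μ₂ = 0 ∧
    ∀ ν : Meas GG, 3 / 4 * ‖ν‖ ≤ ‖μ₁ * ν‖ + ‖μ₂ * ν‖ := by
  obtain ⟨κ, hκn, hκ⟩ := exists_limit (μ := kap) kap_tot fun i => norm_le_one_of (kap_ord i) (kap_tot i)
  obtain ⟨η, hηn, hη⟩ := exists_limit (μ := et) et_tot fun i => norm_le_one_of (et_ord i) (et_tot i)
  obtain ⟨φ, h1, h2⟩ := exists_char κ η (dist_bound hκ hη)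
  refine ⟨φ, κ, η - (φ η) • 1, h1, ?_, ?_⟩
  · rw [map_sub, map_smul, map_one, smul_eq_mul, mul_one, sub_self]
  · intro ν
    have h3 := main_ineq (κi := kap) (ηi := et) (wi := wm) et_eq dom_i kap_ord et_ord
      (fun i => norm_le_one_of (et_ord i) (et_tot i)) hκ hη ν
    have h4 : ‖φ η‖ * ‖ν‖ - ‖η * ν‖ ≤ ‖(η - (φ η) • 1) * ν‖ := by
      have e : (η - (φ η) • 1) * ν = η * ν - (φ η) • ν := by
        rw [sub_mul, smul_mul_assoc, one_mul]
      rw [e]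
      have := norm_sub_norm_le ((φ η) • ν) (η * ν)
      rw [norm_smul, norm_sub_rev] at this
      exact this
    have h5 : ‖ν‖ ≤ ‖φ η‖ * ‖ν‖ := le_mul_of_one_le_left (norm_nonneg _) h2
    have h6 : ‖η * ν‖ ≤ ‖κ * ν‖ + ‖ν‖ / 4 := by
      refine abs_le_of_sq_le_sq' (a := ‖η * ν‖) (b := ‖κ * ν‖ + ‖ν‖ / 4) ?_ (by positivity) |>.2
      nlinarith [sq_nonneg (‖κ * ν‖ - ‖ν‖ / 4)]
    linarith

end
end Pool.Agent.TH258.Cx
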